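import Mathlib

/-!
# MP_39e5ce_co : open one-sided Hadwiger numbers beat the cube in every dimension `d ≥ 3`

`n(d) ≥ (29 * 3 ^ (d - 3) - 1) / 2` for every `d ≥ 3`; in particular `n(3) ≥ 14`, whereas the
cube only gives `(3 ^ d - 1) / 2 = (27 * 3 ^ (d - 3) - 1) / 2`.
-/

namespace Pool.Agent.Results.MP_39e5ce_co.BeatsCube

open Set

/-- Euclidean `d`-space. -/
abbrev E (d : ℕ) := EuclideanSpace ℝ (Fin d)

/-- A convex body: a compact convex set with nonempty interior. -/
def IsBody {d : ℕ} (K : Set (E d)) : Prop :=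
  Convex ℝ K ∧ IsCompact K ∧ (interior K).Nonempty

/-- The translate `K + v`. -/
def translate {d : ℕ} (K : Set (E d)) (v : E d) : Set (E d) := (fun x => x + v) '' K

/-- Two sets are non-overlapping if their interiors are disjoint. -/
def NonOverlapping {d : ℕ} (A B : Set (E d)) : Prop := Disjoint (interior A) (interior B)

/-- `A` touches `B` if they are non-overlapping and meet. -/
def Touches {d : ℕ} (A B : Set (E d)) : Prop := NonOverlapping A B ∧ (A ∩ B).Nonempty

/-- `{x | c ≤ f x}` is a closed supporting halfspace of `K`: it is a halfspace (`f ≠ 0`), contains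
`K`, and its boundary hyperplane `{x | f x = c}` meets `K`. -/
def Supporting {d : ℕ} (f : E d →L[ℝ] ℝ) (c : ℝ) (K : Set (E d)) : Prop :=
  f ≠ 0 ∧ K ⊆ {x | c ≤ f x} ∧ ({x | f x = c} ∩ K).Nonempty

/-- The translates `K + v`, `v ∈ V`, are pairwise non-overlapping, all touch `K`, and all lie in
one common open supporting halfspace `{x | c < f x}` of `K`. -/
def OpenOneSided {d : ℕ} (K : Set (E d)) (V : Finset (E d)) : Prop :=
  (∀ v ∈ V, Touches (translate K v) K) ∧
  (∀ v ∈ V, ∀ w ∈ V, v ≠ w → NonOverlapping (translate K v) (translate K w)) ∧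
  ∃ (f : E d →L[ℝ] ℝ) (c : ℝ), Supporting f c K ∧ ∀ v ∈ V, translate K v ⊆ {x | c < f x}

/-- `h°(K)`, the open one-sided Hadwiger number of `K`. -/
noncomputable def hOpen {d : ℕ} (K : Set (E d)) : ℕ∞ :=
  ⨆ (V : Finset (E d)) (_ : OpenOneSided K V), (V.card : ℕ∞)

/-- `n(d)`, the largest open one-sided Hadwiger number of a convex body in `E^d`. -/
noncomputable def n (d : ℕ) : ℕ∞ :=
  ⨆ (K : Set (E d)) (_ : IsBody K), hOpen K

/-! ### The combinatorial core, in coordinates -/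

/-- A finite family `Λ` of linear functionals defining a bounded symmetric polytope
`{x | ∀ ℓ ∈ Λ, |ℓ x| ≤ 1}`, a functional `f` and a set `U` of boundary points at mutual distance
at least `1`, all with `f ≥ 1`. -/
structure Conf (d N : ℕ) where
  Λ : Set (Module.Dual ℝ (Fin d → ℝ))
  fin : Λ.Finite
  U : Finset (Fin d → ℝ)
  f : Module.Dual ℝ (Fin d → ℝ)
  R : ℝ
  bdd : ∀ x : Fin d → ℝ, (∀ l ∈ Λ, |l x| ≤ 1) → ∀ j, |x j| ≤ R
  mem : ∀ u ∈ U, ∀ l ∈ Λ, |l u| ≤ 1
  bdry : ∀ u ∈ U, ∃ l ∈ Λ, 1 ≤ |l u|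
  sep : ∀ u ∈ U, ∀ w ∈ U, u ≠ w → ∃ l ∈ Λ, 1 ≤ |l (u - w)|
  pos : ∀ u ∈ U, 1 ≤ f u
  card : U.card = N

/-- The linear map dropping the first coordinate. -/
noncomputable def tl (d : ℕ) : (Fin (d + 1) → ℝ) →ₗ[ℝ] (Fin d → ℝ) :=
  LinearMap.funLeft ℝ ℝ (Fin.succ : Fin d → Fin (d + 1))

lemma tl_cons (d : ℕ) (t : ℝ) (u : Fin d → ℝ) :
    tl d (Fin.cons t u : Fin (d + 1) → ℝ) = u := by
  funext j
  simp [tl, LinearMap.funLeft_apply]

/-- The first coordinate. -/
noncomputable def hd (d : ℕ) : Module.Dual ℝ (Fin (d + 1) → ℝ) := LinearMap.proj 0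

lemma hd_cons (d : ℕ) (t : ℝ) (u : Fin d → ℝ) :
    hd d (Fin.cons t u : Fin (d + 1) → ℝ) = t := by
  simp [hd]

/-- The product step. -/
lemma step (d N : ℕ) (C : Nonempty (Conf d N)) : Nonempty (Conf (d + 1) (3 * N + 1)) := by
  classical
  obtain ⟨C⟩ := C
  have h0 : (0 : Fin d → ℝ) ∉ C.U := by
    intro h
    have := C.pos 0 h
    simp at this
    linarith
  let g : ℝ × (Fin d → ℝ) → (Fin (d + 1) → ℝ) := fun p => Fin.cons p.1 p.2
  have ginj : Function.Injective g := by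
    intro p q h
    have h1 : hd d (g p) = hd d (g q) := by rw [h]
    have h2 : tl d (g p) = tl d (g q) := by rw [h]
    simp only [g, hd_cons, tl_cons] at h1 h2
    exact Prod.ext h1 h2
  let S : Finset (ℝ × (Fin d → ℝ)) := (({-1, 0, 1} : Finset ℝ) ×ˢ C.U) ∪ {((1 : ℝ), (0 : Fin d → ℝ))}
  have hS : S.card = 3 * N + 1 := by
    have hdisj : Disjoint (({-1, 0, 1} : Finset ℝ) ×ˢ C.U) ({((1 : ℝ), (0 : Fin d → ℝ))} : Finset _) := by
      rw [Finset.disjoint_singleton_right]
      intro h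
      rw [Finset.mem_product] at h
      exact h0 h.2
    have h3 : (({-1, 0, 1} : Finset ℝ)).card = 3 := by
      rw [Finset.card_insert_of_notMem, Finset.card_insert_of_notMem, Finset.card_singleton]
      · simp
      · simp; norm_num
    show (_ ∪ _ : Finset _).card = _
    rw [Finset.card_union_of_disjoint hdisj, Finset.card_product, h3, Finset.card_singleton, C.card]
  have memS : ∀ p ∈ S, (p.1 = -1 ∨ p.1 = 0 ∨ p.1 = 1) ∧ (p.2 ∈ C.U ∨ (p.1 = 1 ∧ p.2 = 0)) := by
    intro p hp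
    rcases Finset.mem_union.mp hp with h | h
    · rw [Finset.mem_product] at h
      refine ⟨by simpa using h.1, Or.inl h.2⟩
    · rw [Finset.mem_singleton] at h
      subst h
      exact ⟨by simp, Or.inr ⟨rfl, rfl⟩⟩
  refine ⟨{
    Λ := insert (hd d) ((fun l => l ∘ₗ tl d) '' C.Λ)
    fin := (C.fin.image _).insert _
    U := S.image g
    f := (2 : ℝ) • (C.f ∘ₗ tl d) + hd d
    R := max 1 C.R
    bdd := ?_
    mem := ?_
    bdry := ?_
    sep := ?_
    pos := ?_
    card := ?_ }⟩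
  · intro x hx j
    refine Fin.cases ?_ (fun j => ?_) j
    · have := hx (hd d) (Set.mem_insert _ _)
      simp only [hd, LinearMap.proj_apply] at this
      exact this.trans (le_max_left _ _)
    · have h1 : ∀ l ∈ C.Λ, |l (tl d x)| ≤ 1 := fun l hl =>
        hx (l ∘ₗ tl d) (Set.mem_insert_of_mem _ ⟨l, hl, rfl⟩)
      have := C.bdd _ h1 j
      simp only [tl, LinearMap.funLeft_apply] at this
      exact this.trans (le_max_right _ _)
  · intro u hu l hl
    obtain ⟨p, hp, rfl⟩ := Finset.mem_image.mp hu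
    obtain ⟨h1, h2⟩ := memS p hp
    rcases Set.mem_insert_iff.mp hl with rfl | ⟨l', hl', rfl⟩
    · simp only [g, hd_cons]
      rcases h1 with h | h | h <;> rw [h] <;> norm_num
    · simp only [g, LinearMap.comp_apply, tl_cons]
      rcases h2 with h | h
      · exact C.mem _ h _ hl'
      · rw [h.2]; simp
  · intro u hu
    obtain ⟨p, hp, rfl⟩ := Finset.mem_image.mp hu
    obtain ⟨h1, h2⟩ := memS p hp
    rcases h2 with h | h
    · obtain ⟨l, hl, h3⟩ := C.bdry _ h
      refine ⟨l ∘ₗ tl d, Set.mem_insert_of_mem _ ⟨l, hl, rfl⟩, ?_⟩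
      simpa only [g, LinearMap.comp_apply, tl_cons] using h3
    · refine ⟨hd d, Set.mem_insert _ _, ?_⟩
      simp only [g, hd_cons]
      rw [h.1]; norm_num
  · intro u hu w hw huw
    obtain ⟨p, hp, rfl⟩ := Finset.mem_image.mp hu
    obtain ⟨q, hq, rfl⟩ := Finset.mem_image.mp hw
    obtain ⟨h1, h2⟩ := memS p hp
    obtain ⟨h3, h4⟩ := memS q hq
    have hpq : p ≠ q := fun h => huw (by rw [h])
    by_cases h12 : p.1 = q.1
    · have h22 : p.2 ≠ q.2 := fun h => hpq (Prod.ext h12 h)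
      have key : ∃ l ∈ C.Λ, 1 ≤ |l (p.2 - q.2)| := by
        rcases h2 with h2 | h2 <;> rcases h4 with h4 | h4
        · exact C.sep _ h2 _ h4 h22
        · obtain ⟨l, hl, h5⟩ := C.bdry _ h2
          refine ⟨l, hl, ?_⟩
          rw [h4.2, sub_zero]; exact h5
        · obtain ⟨l, hl, h5⟩ := C.bdry _ h4
          refine ⟨l, hl, ?_⟩
          rw [h2.2, zero_sub, map_neg, abs_neg]; exact h5
        · exact absurd (h2.2.trans h4.2.symm) h22
      obtain ⟨l, hl, h5⟩ := key
      refine ⟨l ∘ₗ tl d, Set.mem_insert_of_mem _ ⟨l, hl, rfl⟩, ?_⟩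
      simpa only [g, LinearMap.comp_apply, map_sub, tl_cons] using h5
    · refine ⟨hd d, Set.mem_insert _ _, ?_⟩
      simp only [g, map_sub, hd_cons]
      rcases h1 with h1 | h1 | h1 <;> rcases h3 with h3 | h3 | h3 <;>
        first | exact absurd (h1.trans h3.symm) h12 | (rw [h1, h3]; norm_num)
  · intro u hu
    obtain ⟨p, hp, rfl⟩ := Finset.mem_image.mp hu
    obtain ⟨h1, h2⟩ := memS p hp
    simp only [g, LinearMap.add_apply, LinearMap.smul_apply, LinearMap.comp_apply, tl_cons, hd_cons,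
      smul_eq_mul]
    rcases h2 with h | h
    · have := C.pos _ h
      rcases h1 with h1 | h1 | h1 <;> rw [h1] <;> linarith
    · rw [h.1, h.2]; simp
  · rw [Finset.card_image_of_injective _ ginj, hS]

/-! ### The base configuration in dimension three -/

/-- Coefficients of the five functionals. -/
def A : Fin 5 → Fin 3 → ℤ :=
  ![![1, 0, 0], ![0, 1, 0], ![-50, -49, 4], ![-60, -39, 4], ![-80, -30, 4]]

/-- Bounds of the five functionals. -/
def m : Fin 5 → ℤ := ![4, 4, 400, 400, 444]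

/-- The fourteen points. -/
def P : Fin 14 → Fin 3 → ℤ :=
  ![![-4, -4, 1], ![-4, 0, 31], ![-4, 4, 61],
    ![0, -4, 51], ![0, 0, 100], ![0, 4, 139],
    ![4, -4, 101], ![4, 0, 150], ![4, 4, 199],
    ![4, 0, 1], ![4, -4, 1], ![-1, 4, 1], ![3, 4, 86], ![4, 4, 1]]

/-- The integer value of the functional `k` at `p`. -/
def G (k : Fin 5) (p : Fin 3 → ℤ) : ℤ := A k 0 * p 0 + A k 1 * p 1 + A k 2 * p 2

lemma G_mem : ∀ i : Fin 14, ∀ k : Fin 5, |G k (P i)| ≤ m k := by decide +kernel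

lemma G_bdry : ∀ i : Fin 14, ∃ k : Fin 5, m k ≤ |G k (P i)| := by decide +kernel

lemma G_sep : ∀ i j : Fin 14, i ≠ j → ∃ k : Fin 5, m k ≤ |G k (P i) - G k (P j)| := by
  decide +kernel

lemma P_pos : ∀ i : Fin 14, 1 ≤ P i 2 := by decide +kernel

lemma m_pos : ∀ k : Fin 5, 0 < m k := by decide +kernel

/-- The real functional number `k`, normalised. -/
noncomputable def L (k : Fin 5) : Module.Dual ℝ (Fin 3 → ℝ) :=
  ((m k : ℝ)⁻¹) • (((A k 0 : ℤ) : ℝ) • LinearMap.proj 0 + ((A k 1 : ℤ) : ℝ) • LinearMap.proj 1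
    + ((A k 2 : ℤ) : ℝ) • LinearMap.proj 2)

lemma L_apply (k : Fin 5) (x : Fin 3 → ℝ) :
    L k x = (m k : ℝ)⁻¹ * ((A k 0 : ℝ) * x 0 + (A k 1 : ℝ) * x 1 + (A k 2 : ℝ) * x 2) := by
  simp only [L, LinearMap.smul_apply, LinearMap.add_apply, LinearMap.proj_apply, smul_eq_mul]

/-- The real point number `i`. -/
def Q (i : Fin 14) : Fin 3 → ℝ := fun j => (P i j : ℝ)

lemma L_Q (k : Fin 5) (i : Fin 14) : L k (Q i) = (m k : ℝ)⁻¹ * (G k (P i) : ℝ) := by
  rw [L_apply]; simp [Q, G]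

lemma base : Nonempty (Conf 3 14) := by
  classical
  have hm : ∀ k, (0 : ℝ) < (m k : ℝ) := fun k => by exact_mod_cast m_pos k
  have habs : ∀ (k : Fin 5) (z : ℤ), |(m k : ℝ)⁻¹ * (z : ℝ)| = (m k : ℝ)⁻¹ * ((|z| : ℤ) : ℝ) := by
    intro k z
    rw [abs_mul, abs_of_pos (inv_pos.mpr (hm k)), Int.cast_abs]
  have sepQ : ∀ i j : Fin 14, i ≠ j → ∃ k, 1 ≤ |L k (Q i - Q j)| := by
    intro i j hij
    obtain ⟨k, hk⟩ := G_sep i j hij
    refine ⟨k, ?_⟩
    rw [map_sub, L_Q, L_Q, ← mul_sub]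
    have h1 : ((G k (P i) : ℝ) - (G k (P j) : ℝ)) = ((G k (P i) - G k (P j) : ℤ) : ℝ) := by
      push_cast; ring
    rw [h1, habs]
    have h2 : (m k : ℝ) ≤ ((|G k (P i) - G k (P j)| : ℤ) : ℝ) := by exact_mod_cast hk
    calc (1 : ℝ) = (m k : ℝ)⁻¹ * (m k : ℝ) := (inv_mul_cancel₀ (hm k).ne').symm
      _ ≤ _ := mul_le_mul_of_nonneg_left h2 (inv_pos.mpr (hm k)).le
  have Qinj : Function.Injective Q := by
    intro i j h
    by_contra hij
    obtain ⟨k, hk⟩ := sepQ i j hij
    rw [h, sub_self, map_zero, abs_zero] at hk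
    linarith
  refine ⟨{
    Λ := Set.range L
    fin := Set.finite_range L
    U := Finset.univ.image Q
    f := LinearMap.proj 2
    R := 199
    bdd := ?_
    mem := ?_
    bdry := ?_
    sep := ?_
    pos := ?_
    card := ?_ }⟩
  · intro x hx
    have h0 := hx (L 0) ⟨0, rfl⟩
    have h1 := hx (L 1) ⟨1, rfl⟩
    have h2 := hx (L 2) ⟨2, rfl⟩
    rw [L_apply] at h0 h1 h2
    have e0 : (m 0 : ℝ) = 4 := by rw [show m 0 = 4 from rfl]; norm_num
    have e1 : (m 1 : ℝ) = 4 := by rw [show m 1 = 4 from rfl]; norm_num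
    have e2 : (m 2 : ℝ) = 400 := by rw [show m 2 = 400 from rfl]; norm_num
    have a00 : (A 0 0 : ℝ) = 1 := by rw [show A 0 0 = 1 from rfl]; norm_num
    have a01 : (A 0 1 : ℝ) = 0 := by rw [show A 0 1 = 0 from rfl]; norm_num
    have a02 : (A 0 2 : ℝ) = 0 := by rw [show A 0 2 = 0 from rfl]; norm_num
    have a10 : (A 1 0 : ℝ) = 0 := by rw [show A 1 0 = 0 from rfl]; norm_num
    have a11 : (A 1 1 : ℝ) = 1 := by rw [show A 1 1 = 1 from rfl]; norm_num
    have a12 : (A 1 2 : ℝ) = 0 := by rw [show A 1 2 = 0 from rfl]; norm_num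
    have a20 : (A 2 0 : ℝ) = -50 := by rw [show A 2 0 = -50 from rfl]; norm_num
    have a21 : (A 2 1 : ℝ) = -49 := by rw [show A 2 1 = -49 from rfl]; norm_num
    have a22 : (A 2 2 : ℝ) = 4 := by rw [show A 2 2 = 4 from rfl]; norm_num
    rw [e0, a00, a01, a02, abs_le] at h0
    rw [e1, a10, a11, a12, abs_le] at h1
    rw [e2, a20, a21, a22, abs_le] at h2
    intro j
    rw [abs_le]
    fin_cases j
    · simp only [Fin.zero_eta, Fin.isValue]
      constructor <;> linarith [h0.1, h0.2]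
    · simp only [Fin.mk_one, Fin.isValue]
      constructor <;> linarith [h1.1, h1.2]
    · simp only [Fin.reduceFinMk, Fin.isValue]
      constructor <;> linarith [h0.1, h0.2, h1.1, h1.2, h2.1, h2.2]
  · intro u hu l hl
    obtain ⟨i, -, rfl⟩ := Finset.mem_image.mp hu
    obtain ⟨k, rfl⟩ := hl
    rw [L_Q, habs]
    have h2 : ((|G k (P i)| : ℤ) : ℝ) ≤ (m k : ℝ) := by exact_mod_cast G_mem i k
    calc _ ≤ (m k : ℝ)⁻¹ * (m k : ℝ) := mul_le_mul_of_nonneg_left h2 (inv_pos.mpr (hm k)).le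
      _ = 1 := inv_mul_cancel₀ (hm k).ne'
  · intro u hu
    obtain ⟨i, -, rfl⟩ := Finset.mem_image.mp hu
    obtain ⟨k, hk⟩ := G_bdry i
    refine ⟨L k, ⟨k, rfl⟩, ?_⟩
    rw [L_Q, habs]
    have h2 : (m k : ℝ) ≤ ((|G k (P i)| : ℤ) : ℝ) := by exact_mod_cast hk
    calc (1 : ℝ) = (m k : ℝ)⁻¹ * (m k : ℝ) := (inv_mul_cancel₀ (hm k).ne').symm
      _ ≤ _ := mul_le_mul_of_nonneg_left h2 (inv_pos.mpr (hm k)).le
  · intro u hu w hw huw
    obtain ⟨i, -, rfl⟩ := Finset.mem_image.mp hu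
    obtain ⟨j, -, rfl⟩ := Finset.mem_image.mp hw
    obtain ⟨k, hk⟩ := sepQ i j (fun h => huw (by rw [h]))
    exact ⟨L k, ⟨k, rfl⟩, hk⟩
  · intro u hu
    obtain ⟨i, -, rfl⟩ := Finset.mem_image.mp hu
    simp only [LinearMap.proj_apply, Q]
    exact_mod_cast P_pos i
  · rw [Finset.card_image_of_injective _ Qinj, Finset.card_univ, Fintype.card_fin]

/-- Configurations in every dimension `k + 3`. -/
lemma allDims (k : ℕ) : ∃ N : ℕ, 2 * N + 1 = 29 * 3 ^ k ∧ Nonempty (Conf (k + 3) N) := by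
  induction k with
  | zero => exact ⟨14, by norm_num, base⟩
  | succ k ih =>
    obtain ⟨N, hN, hC⟩ := ih
    refine ⟨3 * N + 1, by rw [pow_succ]; omega, ?_⟩
    have := step (k + 3) N hC
    rwa [show k + 3 + 1 = k + 1 + 3 by omega] at this

/-! ### Transfer to Euclidean space -/

/-- The scaled unit points as translation vectors, and the polytope, in `E d`. -/
lemma transfer (d N : ℕ) (hN : 0 < N) (hC : Nonempty (Conf d N)) :
    ∃ K : Set (E d), IsBody K ∧ ∃ V : Finset (E d), V.card = N ∧ OpenOneSided K V := by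
  classical
  obtain ⟨C⟩ := hC
  let e : E d ≃L[ℝ] (Fin d → ℝ) := EuclideanSpace.equiv (Fin d) ℝ
  let K : Set (E d) := {x | ∀ l ∈ C.Λ, |l (e x)| ≤ 1}
  have lcont : ∀ l : Module.Dual ℝ (Fin d → ℝ), Continuous fun x : E d => l (e x) := fun l =>
    (LinearMap.continuous_of_finiteDimensional l).comp e.continuous
  have Kconv : Convex ℝ K := by
    intro x hx y hy a b ha hb hab l hl
    have h1 := abs_le.mp (hx l hl)
    have h2 := abs_le.mp (hy l hl)
    have h3 : l (e (a • x + b • y)) = a * l (e x) + b * l (e y) := by simp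
    rw [h3, abs_le]
    constructor <;> nlinarith [h1.1, h1.2, h2.1, h2.2]
  have Kclosed : IsClosed K := by
    have : K = ⋂ l ∈ C.Λ, {x | |l (e x)| ≤ 1} := by ext x; simp [K]
    rw [this]
    exact isClosed_biInter fun l _ => isClosed_le (lcont l).abs continuous_const
  have Kcomp : IsCompact K := by
    have hsub : K ⊆ e ⁻¹' (Metric.closedBall 0 (|C.R|)) := by
      intro x hx
      have := C.bdd (e x) hx
      show dist (e x) 0 ≤ |C.R|
      rw [dist_zero_right, pi_norm_le_iff_of_nonneg (abs_nonneg _)]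
      intro j
      exact (this j).trans (le_abs_self _)
    have hc : IsCompact (e ⁻¹' (Metric.closedBall (0 : Fin d → ℝ) (|C.R|))) :=
      e.toHomeomorph.isCompact_preimage.mpr (isCompact_closedBall _ _)
    exact hc.of_isClosed_subset Kclosed hsub
  have Kint : (interior K).Nonempty := by
    refine ⟨0, ?_⟩
    have hopen : IsOpen {x : E d | ∀ l ∈ C.Λ, |l (e x)| < 1} := by
      have : {x : E d | ∀ l ∈ C.Λ, |l (e x)| < 1} = ⋂ l ∈ C.Λ, {x | |l (e x)| < 1} := by
        ext x; simp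
      rw [this]
      exact C.fin.isOpen_biInter fun l _ => isOpen_lt (lcont l).abs continuous_const
    refine mem_interior.mpr ⟨_, ?_, hopen, ?_⟩
    · intro x hx l hl
      exact (hx l hl).le
    · intro l _
      simp
  have Ksymm : ∀ x ∈ K, -x ∈ K := by
    intro x hx l hl
    have := hx l hl
    rwa [map_neg, map_neg, abs_neg]
  have Kint_lt : ∀ x ∈ interior K, ∀ l ∈ C.Λ, |l (e x)| < 1 := by
    intro x hx l hl
    have hcont : Continuous fun t : ℝ => t • x := continuous_id.smul continuous_const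
    have hnhds : (fun t : ℝ => t • x) ⁻¹' (interior K) ∈ nhds (1 : ℝ) :=
      (isOpen_interior.preimage hcont).mem_nhds (by simpa using hx)
    obtain ⟨ε, hε, hball⟩ := Metric.mem_nhds_iff.mp hnhds
    have h1 : (1 + ε / 2 : ℝ) ∈ Metric.ball (1 : ℝ) ε := by
      rw [Metric.mem_ball, Real.dist_eq]
      rw [show (1 + ε / 2 - 1 : ℝ) = ε / 2 by ring, abs_of_pos (by linarith)]
      linarith
    have h2 := interior_subset (hball h1) l hl
    simp only [map_smul, smul_eq_mul, abs_mul] at h2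
    rw [abs_of_pos (by linarith : (0 : ℝ) < 1 + ε / 2)] at h2
    by_contra h3
    have h4 : 1 ≤ |l (e x)| := not_lt.mp h3
    nlinarith
  have int_translate : ∀ v x, x ∈ interior (translate K v) → x - v ∈ interior K := by
    intro v x hx
    have h1 : interior (translate K v) = (fun x => x + v) '' interior K :=
      ((Homeomorph.addRight v).image_interior K).symm
    rw [h1] at hx
    obtain ⟨y, hy, rfl⟩ := hx
    simpa using hy
  have nonover : ∀ v w, (∃ l ∈ C.Λ, 2 ≤ |l (e (v - w))|) →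
      NonOverlapping (translate K v) (translate K w) := by
    intro v w ⟨l, hl, h2⟩
    refine Set.disjoint_left.mpr fun x hx hy => ?_
    have h3 := abs_lt.mp (Kint_lt _ (int_translate v x hx) l hl)
    have h4 := abs_lt.mp (Kint_lt _ (int_translate w x hy) l hl)
    have h5 : l (e (v - w)) = l (e (x - w)) - l (e (x - v)) := by
      rw [← map_sub, ← map_sub]
      congr 2
      abel
    rw [h5] at h2
    have : |l (e (x - w)) - l (e (x - v))| < 2 := by
      rw [abs_lt]; constructor <;> linarith [h3.1, h3.2, h4.1, h4.2]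
    linarith
  have trans0 : translate K 0 = K := by
    simp [translate]
  let F : E d →L[ℝ] ℝ := (LinearMap.toContinuousLinearMap C.f).comp (e : E d →L[ℝ] (Fin d → ℝ))
  have F_apply : ∀ x, F x = C.f (e x) := fun x => rfl
  let g : (Fin d → ℝ) → E d := fun u => (2 : ℝ) • e.symm u
  have eg : ∀ u, e (g u) = (2 : ℝ) • u := fun u => by simp [g]
  have ginj : Function.Injective g := by
    intro u w h
    have h1 : e (g u) = e (g w) := by rw [h]
    rw [eg, eg] at h1
    exact smul_right_injective _ (two_ne_zero) h1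
  have K0 : (0 : E d) ∈ K := by
    intro l _
    simp
  obtain ⟨x0, hx0, hmax⟩ := Kcomp.exists_isMaxOn ⟨0, K0⟩ F.continuous.continuousOn
  have hUne : C.U.Nonempty := by
    rw [← Finset.card_pos, C.card]; exact hN
  refine ⟨K, ⟨Kconv, Kcomp, Kint⟩, C.U.image g, ?_, ?_, ?_, F, -F x0, ⟨?_, ?_, ?_⟩, ?_⟩
  · rw [Finset.card_image_of_injective _ ginj, C.card]
  · intro v hv
    obtain ⟨u, hu, rfl⟩ := Finset.mem_image.mp hv
    constructor
    · have h1 : NonOverlapping (translate K (g u)) (translate K 0) := by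
        apply nonover
        obtain ⟨l, hl, h2⟩ := C.bdry u hu
        refine ⟨l, hl, ?_⟩
        rw [sub_zero, eg, map_smul, smul_eq_mul, abs_mul, abs_two]
        linarith
      rwa [trans0] at h1
    · have h1 : e.symm u ∈ K := by
        intro l hl
        rw [ContinuousLinearEquiv.apply_symm_apply]
        exact C.mem u hu l hl
      refine ⟨e.symm u, ⟨-e.symm u, Ksymm _ h1, ?_⟩, h1⟩
      show -e.symm u + (2 : ℝ) • e.symm u = e.symm u
      rw [two_smul]; abel
  · intro v hv w hw hvw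
    obtain ⟨u, hu, rfl⟩ := Finset.mem_image.mp hv
    obtain ⟨u', hu', rfl⟩ := Finset.mem_image.mp hw
    obtain ⟨l, hl, h1⟩ := C.sep u hu u' hu' (fun h => hvw (by rw [h]))
    refine nonover _ _ ⟨l, hl, ?_⟩
    rw [map_sub, eg, eg, ← smul_sub, map_smul, smul_eq_mul, abs_mul, abs_two]
    linarith
  · intro hF
    obtain ⟨u, hu⟩ := hUne
    have h1 := C.pos u hu
    have h2 : F (e.symm u) = C.f u := by rw [F_apply, ContinuousLinearEquiv.apply_symm_apply]
    rw [hF] at h2
    simp at h2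
    linarith
  · intro x hx
    have h1 : F (-x) ≤ F x0 := hmax (Ksymm x hx)
    rw [map_neg] at h1
    show -F x0 ≤ F x
    linarith
  · refine ⟨-x0, ?_, Ksymm x0 hx0⟩
    show F (-x0) = -F x0
    rw [map_neg]
  · intro v hv
    obtain ⟨u, hu, rfl⟩ := Finset.mem_image.mp hv
    rintro _ ⟨x, hx, rfl⟩
    have h1 : F (-x) ≤ F x0 := hmax (Ksymm x hx)
    rw [map_neg] at h1
    have h2 : F (g u) = 2 * C.f u := by rw [F_apply, eg, map_smul, smul_eq_mul]
    have h3 := C.pos u hu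
    show -F x0 < F (x + g u)
    rw [map_add, h2]
    linarith

/-- **Main theorem.** `n(d) ≥ (29 * 3 ^ (d - 3) - 1) / 2` for every `d ≥ 3`; the `d`-cube only
gives `(3 ^ d - 1) / 2 = (27 * 3 ^ (d - 3) - 1) / 2`. -/
theorem result (d : ℕ) (hd : 3 ≤ d) : (((29 * 3 ^ (d - 3) - 1) / 2 : ℕ) : ℕ∞) ≤ n d := by
  obtain ⟨k, rfl⟩ : ∃ k, d = k + 3 := ⟨d - 3, by omega⟩
  obtain ⟨N, hN, hC⟩ := allDims k
  have hpos : 0 < 3 ^ k := by positivity
  obtain ⟨K, hK, V, hV, hO⟩ := transfer (k + 3) N (by omega) hC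
  simp only [Nat.add_sub_cancel]
  have h1 : (29 * 3 ^ k - 1) / 2 = V.card := by omega
  rw [h1]
  exact le_iSup₂_of_le K hK (le_iSup₂_of_le (f := fun (V : Finset (E (k + 3)))
    (_ : OpenOneSided K V) => (V.card : ℕ∞)) V hO le_rfl)

end Pool.Agent.Results.MP_39e5ce_co.BeatsCube
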